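import Pool.Agent.H15.JD.Un

/-! Windows of LOGARITHMIC length (and shorter ones) at the dilates of a point by typical tuples of primes of polylogarithmic
size: almost all points have a prime in one of the `k` windows of length `lam * log N` as soon as `lam * k` is large. -/

set_option autoImplicit false

namespace Pool.Agent.Results.MP_7b323f_nt.LogWindows
open Finset Pool.Agent.H15.JD

/-- For every `B` there is a `C` such that for all `M ≥ 1` and `0 ≤ δ < 1` there are `K` and `N₀` with the following property.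
Let `N ≥ N₀`, `1 ≤ k ≤ (log N)^B`, `(log N)^C ≤ P_j ≤ N^B`, let `A_j` be any set of at least `P_j / (log N)^B` primes in
`(P_j / 2, P_j]` (`j ≤ k`), let `16 / log N ≤ lam ≤ 1` and let `η ≤ 1` satisfy `P_j η ≥ lam log N` for all `j`. Then all but a
proportion `1 / (log N)^B` of the tuples `(a_1, ..., a_k)` in `A_1 × ... × A_k` have the following property: if `F` is any
finite `η`-separated set of reals `x` in `[N, 2 N]` with `∑_{a_j x < p ≤ a_j (x + η)} log p ≤ δ a_j η` for all `j ≤ k` (for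
`δ = 0`: there is no prime in any of the `k` windows `(a_j x, a_j (x + η)]`), then
`|F| ≤ ((K / (lam k))^M + 1 / (log N)^B) N / η`. -/
theorem result (B : ℕ) : ∃ C : ℕ, ∀ (M : ℕ) (δ : ℝ), 1 ≤ M → 0 ≤ δ → δ < 1 → ∃ K N₀ : ℝ,
    ∀ (N η lam : ℝ) (k : ℕ) (P : Fin k → ℝ) (A : Fin k → Finset ℕ),
    N₀ ≤ N → 1 ≤ k → (k : ℝ) ≤ Real.log N ^ B → (∀ j, Real.log N ^ C ≤ P j) → (∀ j, P j ≤ N ^ B) →
    (∀ j, ∀ a ∈ A j, a.Prime ∧ P j / 2 < a ∧ (a : ℝ) ≤ P j) → (∀ j, P j / Real.log N ^ B ≤ (A j).card) →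
    lam ≤ 1 → 16 ≤ lam * Real.log N → (∀ j, lam * Real.log N ≤ P j * η) → 0 < η → η ≤ 1 →
    ∃ E : Finset (Fin k → ℕ), E ⊆ Fintype.piFinset A ∧ (E.card : ℝ) ≤ (∏ j, ((A j).card : ℝ)) / Real.log N ^ B ∧
      ∀ a ∈ Fintype.piFinset A, a ∉ E → ∀ F : Finset ℝ, (∀ x ∈ F, N ≤ x ∧ x ≤ 2 * N) →
        (∀ x ∈ F, ∀ x' ∈ F, x ≠ x' → η ≤ |x - x'|) →
        (∀ x ∈ F, ∀ j, ∑ p ∈ (Finset.Ioc ⌊(a j : ℝ) * x⌋₊ ⌊(a j : ℝ) * (x + η)⌋₊).filter Nat.Prime, Real.log p ≤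
          δ * (a j * η)) →
        (F.card : ℝ) ≤ ((K / (lam * k)) ^ M + 1 / Real.log N ^ B) * (N / η) :=
  unif B

end Pool.Agent.Results.MP_7b323f_nt.LogWindows
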