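import Pool.Agent.H15.JD.Qk

/-! Every typical dilation by a prime of polylogarithmic size finds primes near at least (almost) a quarter of the points of
an ARBITRARY set of points, for example of the points at which all the dilations used before have failed. -/

set_option autoImplicit false

namespace Pool.Agent.Results.MP_7b323f_nt.QuarterPerDilation
open Finset Pool.Agent.H15.JD

/-- For all `B`, `ε > 0` and `δ < 1` there are `C` and `N₀` with the following property. Let `N ≥ N₀`, `k ≤ (log N)^B`,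
`(log N)^C ≤ P_j ≤ N^B`, let `A_j` be any set of at least `P_j / (log N)^B` primes in `(P_j / 2, P_j]` (`j ≤ k`), let
`(log N)^C / P_j ≤ η ≤ 1` and let `S` be any finite `η`-separated set of reals in `[N, 2 N]`. Then all but a proportion
`1 / (log N)^B` of the tuples `(a_1, ..., a_k)` in `A_1 × ... × A_k` are such that at most
`(3 / (4 - δ) + ε)^k |S| + N / (η (log N)^B)` points `x` of `S` satisfy
`∑_{a_j x < p ≤ a_j (x + η)} log p ≤ δ a_j η` for all `j ≤ k`. For `δ = 0` these are the points such that there is no prime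
in any of the `k` windows `(a_j x, a_j (x + η)]`, and the number is at most `(3 / 4 + ε)^k |S| + N / (η (log N)^B)`. -/
theorem result (B : ℕ) (δ ε : ℝ) (hδ : δ < 1) (hε : 0 < ε) : ∃ (C : ℕ) (N₀ : ℝ),
    ∀ (N η : ℝ) (k : ℕ) (P : Fin k → ℝ) (A : Fin k → Finset ℕ) (S : Finset ℝ),
    N₀ ≤ N → (k : ℝ) ≤ Real.log N ^ B → (∀ j, Real.log N ^ C ≤ P j) → (∀ j, P j ≤ N ^ B) →
    (∀ j, ∀ a ∈ A j, a.Prime ∧ P j / 2 < a ∧ (a : ℝ) ≤ P j) → (∀ j, P j / Real.log N ^ B ≤ (A j).card) →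
    (∀ j, Real.log N ^ C / P j ≤ η) → 0 < η → η ≤ 1 → (∀ x ∈ S, N ≤ x ∧ x ≤ 2 * N) →
    (∀ x ∈ S, ∀ x' ∈ S, x ≠ x' → η ≤ |x - x'|) →
    ∃ E : Finset (Fin k → ℕ), E ⊆ Fintype.piFinset A ∧ (E.card : ℝ) ≤ (∏ j, ((A j).card : ℝ)) / Real.log N ^ B ∧
      ∀ a ∈ Fintype.piFinset A, a ∉ E → ∀ F ⊆ S,
        (∀ x ∈ F, ∀ j, ∑ p ∈ (Finset.Ioc ⌊(a j : ℝ) * x⌋₊ ⌊(a j : ℝ) * (x + η)⌋₊).filter Nat.Prime, Real.log p ≤
          δ * (a j * η)) →
        (F.card : ℝ) ≤ (3 / (4 - δ) + ε) ^ k * S.card + N / η / Real.log N ^ B :=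
  quarter B δ ε hδ hε

end Pool.Agent.Results.MP_7b323f_nt.QuarterPerDilation
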